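import Pool.Agent.Lib.MP_2c91bd_gt.Space

/-!
The Hoare power space of the space `Pt` is not consonant.
-/

set_option autoImplicit false

namespace Pool.Agent.Lib.MP_2c91bd_gt

open Set Pt Topology

/-- Nonempty closed subsets. -/
abbrev H : Type := {C : Set Pt // IsClosed C ∧ C.Nonempty}

/-- The sets meeting `U`. -/
def dia (U : Set Pt) : Set H := {C : H | (C.1 ∩ U).Nonempty}

/-- The lower Vietoris topology. -/
def tH : TopologicalSpace H :=
  TopologicalSpace.generateFrom {S | ∃ U : Set Pt, IsOpen U ∧ S = {C : H | (C.1 ∩ U).Nonempty}}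

/-- The two-point set as a point of the power space. -/
def pr (x y : Pt) : H := ⟨{x, y}, (toFinite _).isClosed, insert_nonempty _ _⟩

theorem isOpen_dia {U : Set Pt} (hU : IsOpen U) : IsOpen[tH] (dia U) :=
  TopologicalSpace.isOpen_generateFrom_of_mem ⟨U, hU, rfl⟩

theorem continuous_pr_left (y : Pt) : Continuous[topPt, tH] fun x => pr x y := by
  refine continuous_generateFrom_iff.2 ?_
  rintro _ ⟨U, hU, rfl⟩
  by_cases hy : y ∈ U
  · have : (fun x => pr x y) ⁻¹' {C : H | (C.1 ∩ U).Nonempty} = univ :=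
      eq_univ_of_forall fun x => ⟨y, Or.inr rfl, hy⟩
    rw [this]; exact isOpen_univ
  · have : (fun x => pr x y) ⁻¹' {C : H | (C.1 ∩ U).Nonempty} = U := by
      ext x
      constructor
      · rintro ⟨z, hz | hz, hzU⟩
        · rwa [← hz]
        · exact absurd (by rwa [← (hz : z = y)]) hy
      · exact fun hx => ⟨x, Or.inl rfl, hx⟩
    rwa [this]

theorem pr_comm (x y : Pt) : pr x y = pr y x := Subtype.ext (pair_comm x y)

theorem continuous_pr_right (x : Pt) : Continuous[topPt, tH] fun y => pr x y := by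
  simpa only [pr_comm x] using continuous_pr_left x

/-- The Scott-open family that is not a union of compactly generated filters. -/
def fam : Set (Set H) :=
  {W | IsOpen[tH] W ∧ pr a b ∈ W ∧ ∀ n h : ℕ, pr (d h n) b ∈ W ∨ pr a (d n h) ∈ W}

theorem fam_up (U : Set H) (hU : U ∈ fam) (V : Set H) (hV : IsOpen[tH] V) (h : U ⊆ V) :
    V ∈ fam :=
  ⟨hV, h hU.2.1, fun n k => (hU.2.2 n k).imp (fun e => h e) fun e => h e⟩

theorem exists_mem_of_finite {α β : Type} (𝒟 : Set (Set α)) (hd : DirectedOn (· ⊆ ·) 𝒟)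
    (P : β → Set α → Prop) (hP : ∀ x D D', D ⊆ D' → P x D → P x D') (D0 : Set α) (h0 : D0 ∈ 𝒟)
    (s : Finset β) (hs : ∀ x ∈ s, ∃ D ∈ 𝒟, P x D) :
    ∃ D ∈ 𝒟, D0 ⊆ D ∧ ∀ x ∈ s, P x D := by
  classical
  induction s using Finset.induction_on with
  | empty => exact ⟨D0, h0, Subset.rfl, fun x hx => absurd hx (Finset.notMem_empty x)⟩
  | insert y s _ ih =>
    obtain ⟨D1, hD1, h01, h1⟩ := ih fun x hx => hs x (Finset.mem_insert_of_mem hx)
    obtain ⟨D2, hD2, h2⟩ := hs y (Finset.mem_insert_self y s)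
    obtain ⟨D, hD, h1D, h2D⟩ := hd D1 hD1 D2 hD2
    refine ⟨D, hD, h01.trans h1D, fun x hx => ?_⟩
    rcases Finset.mem_insert.1 hx with rfl | hx
    · exact hP _ _ _ h2D h2
    · exact hP _ _ _ h1D (h1 x hx)

theorem fam_scott (𝒟 : Set (Set H)) (hd : DirectedOn (· ⊆ ·) 𝒟)
    (ho : ∀ D ∈ 𝒟, IsOpen[tH] D) (hU : ⋃₀ 𝒟 ∈ fam) : ∃ D ∈ 𝒟, D ∈ fam := by
  obtain ⟨-, ⟨D0, hD0, hab⟩, hall⟩ := hU
  have h1 : IsOpen ((fun x => pr x b) ⁻¹' D0) :=
    @Continuous.isOpen_preimage _ _ topPt tH _ (continuous_pr_left b) D0 (ho D0 hD0)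
  have h2 : IsOpen ((fun y => pr a y) ⁻¹' D0) :=
    @Continuous.isOpen_preimage _ _ topPt tH _ (continuous_pr_right a) D0 (ho D0 hD0)
  choose f hf using ((isOpen_iff _).1 h1).1 hab
  obtain ⟨k, hk⟩ := ((isOpen_iff _).1 h2).2 hab
  let s : Finset (ℕ × ℕ) :=
    (Finset.range k).biUnion fun n => (Finset.range (f n)).image fun h => (n, h)
  obtain ⟨D, hD, h0D, hs⟩ := exists_mem_of_finite 𝒟 hd
    (fun (p : ℕ × ℕ) (W : Set H) => pr (d p.2 p.1) b ∈ W ∨ pr a (d p.1 p.2) ∈ W)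
    (fun p W W' h e => e.imp (fun e => h e) fun e => h e) D0 hD0 s
    (fun p _ => by
      rcases hall p.1 p.2 with ⟨D, hD, e⟩ | ⟨D, hD, e⟩
      · exact ⟨D, hD, Or.inl e⟩
      · exact ⟨D, hD, Or.inr e⟩)
  refine ⟨D, hD, ho D hD, h0D hab, fun n h => ?_⟩
  by_cases hn : n < k
  · by_cases hh : h < f n
    · refine hs (n, h) ?_
      exact Finset.mem_biUnion.2 ⟨n, Finset.mem_range.2 hn,
        Finset.mem_image.2 ⟨h, Finset.mem_range.2 hh, rfl⟩⟩
    · exact Or.inl (h0D (hf n h (by omega)))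
  · exact Or.inr (h0D (hk n (by omega) h))

/-- The member of the family at which consonance fails. -/
def W0 : Set H := dia {b}ᶜ ∩ dia {a}ᶜ

theorem W0_mem : W0 ∈ fam := by
  refine ⟨@IsOpen.inter _ tH _ _ (isOpen_dia isOpen_compl_singleton)
    (isOpen_dia isOpen_compl_singleton), ⟨⟨a, Or.inl rfl, fun h => by cases h⟩,
      ⟨b, Or.inr rfl, fun h => by cases h⟩⟩, fun n h => Or.inl
        ⟨⟨d h n, Or.inl rfl, fun h => by cases h⟩, ⟨b, Or.inr rfl, fun h => by cases h⟩⟩⟩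

theorem subset_dia_of_compact {K : Set H} (hK : @IsCompact _ tH K) (O : ℕ → Set Pt)
    (hO : ∀ m, IsOpen (O m)) (hm : Monotone O) (hc : K ⊆ dia (⋃ m, O m)) :
    ∃ m, K ⊆ dia (O m) := by
  refine @IsCompact.elim_directed_cover _ tH K ℕ _ hK (fun m => dia (O m))
    (fun m => isOpen_dia (hO m)) ?_ ?_
  · intro C hC
    obtain ⟨x, hx, hxO⟩ := hc hC
    obtain ⟨m, hxm⟩ := mem_iUnion.1 hxO
    exact mem_iUnion.2 ⟨m, x, hx, hxm⟩
  · refine Monotone.directed_le ?_
    rintro m m' h C ⟨x, hx, hxm⟩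
    exact ⟨x, hx, hm h hxm⟩

theorem not_consonant (K : Set H) (hK : @IsCompact _ tH K) (hKW : K ⊆ W0) :
    ∃ V : Set H, IsOpen[tH] V ∧ K ⊆ V ∧ V ∉ fam := by
  have h1 : ∀ n : ℕ, ∃ g : ℕ, K ⊆ dia {x | x ≠ a ∧ ∀ h, g ≤ h → x ≠ d n h} := by
    intro n
    refine subset_dia_of_compact hK (fun g => {x | x ≠ a ∧ ∀ h, g ≤ h → x ≠ d n h}) ?_ ?_ ?_
    · intro g
      rw [isOpen_iff]
      refine ⟨fun h => absurd rfl h.1, fun _ => ⟨n + 1, fun i hi j => ⟨?_, fun h _ e => ?_⟩⟩⟩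
      · intro e; cases e
      · have : i = n := by injection e
        omega
    · intro g g' hg x hx
      exact ⟨hx.1, fun h hh => hx.2 h (hg.trans hh)⟩
    · intro C hC
      obtain ⟨x, hx, hxa⟩ := (hKW hC).2
      refine ⟨x, hx, mem_iUnion.2 ?_⟩
      cases x with
      | a => exact absurd rfl hxa
      | b => exact ⟨0, fun e => (by cases e), fun h _ e => by cases e⟩
      | d i j =>
        refine ⟨j + 1, fun e => (by cases e), fun h hh e => ?_⟩
        have : j = h := by injection e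
        omega
  choose g hg using h1
  have h2 : ∃ m : ℕ, K ⊆ dia {x | x ≠ b ∧ ∀ n, m ≤ n → x ≠ d (g n) n} := by
    refine subset_dia_of_compact hK (fun m => {x | x ≠ b ∧ ∀ n, m ≤ n → x ≠ d (g n) n}) ?_ ?_ ?_
    · intro m
      rw [isOpen_iff]
      refine ⟨fun _ j => ⟨g j + 1, fun i hi => ⟨?_, fun n _ e => ?_⟩⟩, fun h => absurd rfl h.1⟩
      · intro e; cases e
      · obtain ⟨e1, e2⟩ : i = g n ∧ j = n := by injection e with e1 e2; exact ⟨e1, e2⟩
        subst e2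
        omega
    · intro m m' hm x hx
      exact ⟨hx.1, fun n hn => hx.2 n (hm.trans hn)⟩
    · intro C hC
      obtain ⟨x, hx, hxb⟩ := (hKW hC).1
      refine ⟨x, hx, mem_iUnion.2 ?_⟩
      cases x with
      | a => exact ⟨0, fun e => (by cases e), fun h _ e => by cases e⟩
      | b => exact absurd rfl hxb
      | d i j =>
        refine ⟨j + 1, fun e => (by cases e), fun n hn e => ?_⟩
        have : j = n := by injection e
        omega
  obtain ⟨m, hm⟩ := h2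
  refine ⟨dia ({d (g m) m, b} : Set Pt)ᶜ ∩ dia ({a, d m (g m)} : Set Pt)ᶜ, ?_, ?_, ?_⟩
  · exact @IsOpen.inter _ tH _ _ (isOpen_dia (toFinite _).isClosed.isOpen_compl)
      (isOpen_dia (toFinite _).isClosed.isOpen_compl)
  · intro C hC
    constructor
    · obtain ⟨x, hx, hxb, hxd⟩ := hm hC
      refine ⟨x, hx, ?_⟩
      rintro (e | e)
      · exact hxd m le_rfl e
      · exact hxb e
    · obtain ⟨x, hx, hxa, hxd⟩ := hg m hC
      refine ⟨x, hx, ?_⟩
      rintro (e | e)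
      · exact hxa e
      · exact hxd (g m) le_rfl e
  · rintro ⟨-, -, h⟩
    rcases h m (g m) with ⟨⟨x, hx, hx'⟩, -⟩ | ⟨-, ⟨x, hx, hx'⟩⟩
    · exact hx' hx
    · exact hx' hx

end Pool.Agent.Lib.MP_2c91bd_gt
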