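import Mathlib

/-!
A countable T1 space made of the isolated points `d i j` and two further points:
`a`, whose neighbourhoods are cofinite on every row (sequential fan), and
`b`, whose neighbourhoods contain all columns from some index on (metric fan).
The space is consonant.
-/

set_option autoImplicit false

namespace Pool.Agent.Lib.MP_2c91bd_gt

open Set

/-- The points of the space. -/
inductive Pt : Type
  | a : Pt
  | b : Pt
  | d : ℕ → ℕ → Pt

open Pt

/-- The open sets. -/
def Op (O : Set Pt) : Prop :=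
  (a ∈ O → ∀ j, ∃ k, ∀ i, k ≤ i → d i j ∈ O) ∧ (b ∈ O → ∃ k, ∀ i, k ≤ i → ∀ j, d i j ∈ O)

instance topPt : TopologicalSpace Pt where
  IsOpen := Op
  isOpen_univ := ⟨fun _ _ => ⟨0, fun _ _ => trivial⟩, fun _ => ⟨0, fun _ _ _ => trivial⟩⟩
  isOpen_inter := by
    rintro s t ⟨hsa, hsb⟩ ⟨hta, htb⟩
    refine ⟨fun h j => ?_, fun h => ?_⟩
    · obtain ⟨k1, h1⟩ := hsa h.1 j
      obtain ⟨k2, h2⟩ := hta h.2 j
      exact ⟨max k1 k2, fun i hi => ⟨h1 i (le_of_max_le_left hi), h2 i (le_of_max_le_right hi)⟩⟩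
    · obtain ⟨k1, h1⟩ := hsb h.1
      obtain ⟨k2, h2⟩ := htb h.2
      exact ⟨max k1 k2, fun i hi j =>
        ⟨h1 i (le_of_max_le_left hi) j, h2 i (le_of_max_le_right hi) j⟩⟩
  isOpen_sUnion := by
    intro S hS
    refine ⟨fun h j => ?_, fun h => ?_⟩
    · obtain ⟨t, ht, hat⟩ := h
      obtain ⟨k, hk⟩ := (hS t ht).1 hat j
      exact ⟨k, fun i hi => ⟨t, ht, hk i hi⟩⟩
    · obtain ⟨t, ht, hbt⟩ := h
      obtain ⟨k, hk⟩ := (hS t ht).2 hbt
      exact ⟨k, fun i hi j => ⟨t, ht, hk i hi j⟩⟩

theorem isOpen_iff (O : Set Pt) : IsOpen O ↔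
    (a ∈ O → ∀ j, ∃ k, ∀ i, k ≤ i → d i j ∈ O) ∧
      (b ∈ O → ∃ k, ∀ i, k ≤ i → ∀ j, d i j ∈ O) := Iff.rfl

instance t1Pt : T1Space Pt := by
  refine ⟨fun x => ?_⟩
  rw [← isOpen_compl_iff, isOpen_iff]
  cases x with
  | a => exact ⟨fun h => absurd rfl h, fun _ => ⟨0, fun i _ j h => by cases h⟩⟩
  | b => exact ⟨fun _ j => ⟨0, fun i _ h => by cases h⟩, fun h => absurd rfl h⟩
  | d i0 j0 =>
    refine ⟨fun _ j => ⟨i0 + 1, fun i hi h => ?_⟩, fun _ => ⟨i0 + 1, fun i hi j h => ?_⟩⟩
    · have : i = i0 := by injection h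
      omega
    · have : i = i0 := by injection h
      omega

/-- A set is compact as soon as it has a point all of whose neighbourhoods contain
all but finitely many points of the set. -/
theorem isCompact_of_point {X : Type} [TopologicalSpace X] (K : Set X) (p : X) (hp : p ∈ K)
    (h : ∀ O : Set X, IsOpen O → p ∈ O → (K \ O).Finite) : IsCompact K := by
  refine isCompact_of_finite_subcover fun {ι} U hU hK => ?_
  obtain ⟨i0, hi0⟩ := mem_iUnion.1 (hK hp)
  have hfin := h (U i0) (hU i0) hi0
  obtain ⟨t, ht⟩ := hfin.isCompact.elim_finite_subcover U hU (sdiff_subset.trans hK)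
  classical
  refine ⟨insert i0 t, fun x hx => ?_⟩
  by_cases hx0 : x ∈ U i0
  · exact mem_biUnion (Finset.mem_insert_self i0 t) hx0
  · obtain ⟨i, hi, hxi⟩ := mem_iUnion₂.1 (ht ⟨hx, hx0⟩)
    exact mem_biUnion (Finset.mem_insert_of_mem hi) hxi

/-- A Scott-open family meets every increasing sequence of open sets whose union is in it. -/
theorem exists_mem_of_monotone {X : Type} [TopologicalSpace X] (𝓤 : Set (Set X))
    (hS : ∀ 𝒟 : Set (Set X), 𝒟.Nonempty → DirectedOn (· ⊆ ·) 𝒟 →
      (∀ D ∈ 𝒟, IsOpen D) → ⋃₀ 𝒟 ∈ 𝓤 → ∃ D ∈ 𝒟, D ∈ 𝓤)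
    (W : ℕ → Set X) (hm : Monotone W) (ho : ∀ n, IsOpen (W n)) (hU : (⋃ n, W n) ∈ 𝓤) :
    ∃ n, W n ∈ 𝓤 := by
  obtain ⟨D, ⟨n, rfl⟩, hD⟩ := hS (range W) (range_nonempty W)
    (by
      rintro _ ⟨m, rfl⟩ _ ⟨n, rfl⟩
      exact ⟨W (max m n), ⟨_, rfl⟩, hm (le_max_left _ _), hm (le_max_right _ _)⟩)
    (by rintro _ ⟨n, rfl⟩; exact ho n) (by rwa [sUnion_range])
  exact ⟨n, hD⟩

theorem finite_box (n : ℕ → ℕ) (k : ℕ) :
    {x : Pt | ∃ i j, x = d i j ∧ i < k ∧ j < n i}.Finite := by
  have : {x : Pt | ∃ i j, x = d i j ∧ i < k ∧ j < n i} ⊆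
      ⋃ i ∈ Finset.range k, (fun j => d i j) '' (Finset.range (n i) : Set ℕ) := by
    rintro _ ⟨i, j, rfl, hi, hj⟩
    exact mem_biUnion (Finset.mem_range.2 hi) ⟨j, by simpa using hj, rfl⟩
  exact Finite.subset (Finite.biUnion (Finset.finite_toSet _)
    fun i _ => (Finset.finite_toSet _).image _) this

theorem finite_box' (n : ℕ → ℕ) (k : ℕ) :
    {x : Pt | ∃ i j, x = d i j ∧ j < k ∧ i < n j}.Finite := by
  have : {x : Pt | ∃ i j, x = d i j ∧ j < k ∧ i < n j} ⊆
      ⋃ j ∈ Finset.range k, (fun i => d i j) '' (Finset.range (n j) : Set ℕ) := by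
    rintro _ ⟨i, j, rfl, hj, hi⟩
    exact mem_biUnion (Finset.mem_range.2 hj) ⟨i, by simpa using hi, rfl⟩
  exact Finite.subset (Finite.biUnion (Finset.finite_toSet _)
    fun i _ => (Finset.finite_toSet _).image _) this

/-- The part of `U` left after trimming the columns `i < k` to height `n i`. -/
def trim (U : Set Pt) (n : ℕ → ℕ) (k : ℕ) : Set Pt :=
  {x | x ∈ U ∧ ∀ i j, x = d i j → i < k → j < n i}

theorem isOpen_trim {U : Set Pt} (hU : IsOpen U) (n : ℕ → ℕ) (k : ℕ) : IsOpen (trim U n k) := by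
  rw [isOpen_iff] at hU ⊢
  refine ⟨fun h j => ?_, fun h => ?_⟩
  · obtain ⟨k1, h1⟩ := hU.1 h.1 j
    refine ⟨max k1 k, fun i hi => ⟨h1 i (le_of_max_le_left hi), fun i' j' e hi' => ?_⟩⟩
    have : i = i' := by injection e
    have := le_of_max_le_right hi
    omega
  · obtain ⟨k1, h1⟩ := hU.2 h.1
    refine ⟨max k1 k, fun i hi j => ⟨h1 i (le_of_max_le_left hi) j, fun i' j' e hi' => ?_⟩⟩
    have : i = i' := by injection e
    have := le_of_max_le_right hi
    omega

/-- The space is consonant. -/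
theorem consonant (𝓤 : Set (Set Pt))
    (hup : ∀ U ∈ 𝓤, ∀ V : Set Pt, IsOpen V → U ⊆ V → V ∈ 𝓤)
    (hS : ∀ 𝒟 : Set (Set Pt), 𝒟.Nonempty → DirectedOn (· ⊆ ·) 𝒟 →
      (∀ D ∈ 𝒟, IsOpen D) → ⋃₀ 𝒟 ∈ 𝓤 → ∃ D ∈ 𝒟, D ∈ 𝓤)
    (U : Set Pt) (hUo : IsOpen U) (hU : U ∈ 𝓤) :
    ∃ K : Set Pt, IsCompact K ∧ K ⊆ U ∧ ∀ V : Set Pt, IsOpen V → K ⊆ V → V ∈ 𝓤 := by
  by_cases hb : b ∈ U
  · -- trim the columns one after the other
    have step : ∀ (k : ℕ) (n : ℕ → ℕ), trim U n k ∈ 𝓤 →
        ∃ m : ℕ, trim U (Function.update n k m) (k + 1) ∈ 𝓤 := by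
      intro k n hn
      refine exists_mem_of_monotone 𝓤 hS (fun m => trim U (Function.update n k m) (k + 1))
        ?_ (fun m => isOpen_trim hUo _ _) ?_
      · intro m m' hmm x hx
        refine ⟨hx.1, fun i j e hi => ?_⟩
        have := hx.2 i j e hi
        by_cases hik : i = k
        · subst hik
          simp only [Function.update_self] at this ⊢
          omega
        · simpa only [Function.update_of_ne hik] using this
      · have : (⋃ m, trim U (Function.update n k m) (k + 1)) = trim U n k := by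
          ext x
          simp only [mem_iUnion]
          constructor
          · rintro ⟨m, hx⟩
            refine ⟨hx.1, fun i j e hi => ?_⟩
            have := hx.2 i j e (by omega)
            rwa [Function.update_of_ne (by omega)] at this
          · intro hx
            cases x with
            | a => exact ⟨0, hx.1, fun i j e => by cases e⟩
            | b => exact ⟨0, hx.1, fun i j e => by cases e⟩
            | d i0 j0 =>
              refine ⟨j0 + 1, hx.1, fun i j e hi => ?_⟩
              obtain ⟨rfl, rfl⟩ : i0 = i ∧ j0 = j := by injection e with e1 e2; exact ⟨e1, e2⟩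
              by_cases hik : i0 = k
              · subst hik
                simp
              · rw [Function.update_of_ne hik]
                exact hx.2 i0 j0 rfl (by omega)
        rwa [this]
    choose! m hm using step
    let N : ℕ → ℕ → ℕ := fun k => Nat.rec (fun _ => 0) (fun k n => Function.update n k (m k n)) k
    have hN0 : trim U (N 0) 0 = U := by
      ext x
      exact ⟨fun h => h.1, fun h => ⟨h, fun i j _ hi => absurd hi (Nat.not_lt_zero _)⟩⟩
    have hNs : ∀ k, N (k + 1) = Function.update (N k) k (m k (N k)) := fun k => rfl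
    have hN : ∀ k, trim U (N k) k ∈ 𝓤 := by
      intro k
      induction k with
      | zero => rwa [hN0]
      | succ k ih => rw [hNs]; exact hm k (N k) ih
    let g : ℕ → ℕ := fun i => N (i + 1) i
    have hg : ∀ k i, i < k → N k i = g i := by
      intro k
      induction k with
      | zero => intro i hi; exact absurd hi (Nat.not_lt_zero _)
      | succ k ih =>
        intro i hi
        by_cases hik : i = k
        · subst hik; rfl
        · rw [hNs, Function.update_of_ne hik]
          exact ih i (by omega)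
    refine ⟨{x | x ∈ U ∧ ∀ i j, x = d i j → j < g i}, ?_, fun x hx => hx.1, fun V hV hKV => ?_⟩
    · refine isCompact_of_point _ b ⟨hb, fun i j e => by cases e⟩ fun O hO hbO => ?_
      obtain ⟨k, hk⟩ := ((isOpen_iff O).1 hO).2 hbO
      refine ((finite_box g k).insert a).subset ?_
      rintro x ⟨hx, hxO⟩
      cases x with
      | a => exact mem_insert _ _
      | b => exact absurd hbO hxO
      | d i j =>
        refine mem_insert_of_mem _ ⟨i, j, rfl, ?_, hx.2 i j rfl⟩
        by_contra hik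
        exact hxO (hk i (by omega) j)
    · have hbV : b ∈ V := hKV ⟨hb, fun i j e => by cases e⟩
      obtain ⟨k, hk⟩ := ((isOpen_iff V).1 hV).2 hbV
      refine hup _ (hN k) V hV fun x hx => ?_
      cases x with
      | a => exact hKV ⟨hx.1, fun i j e => by cases e⟩
      | b => exact hbV
      | d i j =>
        by_cases hik : i < k
        · refine hKV ⟨hx.1, fun i' j' e => ?_⟩
          obtain ⟨rfl, rfl⟩ : i = i' ∧ j = j' := by injection e with e1 e2; exact ⟨e1, e2⟩
          rw [← hg k i hik]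
          exact hx.2 i j rfl hik
        · exact hk i (by omega) j
  · by_cases ha : a ∈ U
    · -- the sequential fan: the compact sets are the first rows
      let K : ℕ → Set Pt := fun n => {x | x ∈ U ∧ ∀ i j, x = d i j → j < n}
      have hKc : ∀ n, IsCompact (K n) := by
        intro n
        refine isCompact_of_point _ a ⟨ha, fun i j e => by cases e⟩ fun O hO haO => ?_
        choose f hf using ((isOpen_iff O).1 hO).1 haO
        refine (finite_box' f n).subset ?_
        rintro x ⟨hx, hxO⟩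
        cases x with
        | a => exact absurd haO hxO
        | b => exact absurd hx.1 hb
        | d i j =>
          refine ⟨i, j, rfl, hx.2 i j rfl, ?_⟩
          by_contra hik
          exact hxO (hf j i (by omega))
      by_contra hcon
      push Not at hcon
      have hW : ∀ n, ∃ V : Set Pt, IsOpen V ∧ K n ⊆ V ∧ V ∉ 𝓤 :=
        fun n => hcon (K n) (hKc n) fun x hx => hx.1
      choose W hWo hKW hWn using hW
      have hKm : Monotone K := fun n n' h x hx => ⟨hx.1, fun i j e => lt_of_lt_of_le (hx.2 i j e) h⟩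
      let W' : ℕ → Set Pt := fun n => {x | x ∈ U ∧ ∀ m, n ≤ m → x ∈ W m}
      have hW'o : ∀ n, IsOpen (W' n) := by
        intro n
        rw [isOpen_iff]
        refine ⟨fun _ j => ?_, fun h => absurd h.1 hb⟩
        have h1 : IsOpen (U ∩ ⋂ m ∈ Finset.range (j + 1), W m) :=
          hUo.inter (isOpen_biInter_finset fun m _ => hWo m)
        have h2 : a ∈ U ∩ ⋂ m ∈ Finset.range (j + 1), W m :=
          ⟨ha, mem_iInter₂.2 fun m _ => hKW m ⟨ha, fun i j e => by cases e⟩⟩
        obtain ⟨k, hk⟩ := ((isOpen_iff _).1 h1).1 h2 j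
        refine ⟨k, fun i hi => ⟨(hk i hi).1, fun m _ => ?_⟩⟩
        by_cases hmj : m < j + 1
        · exact mem_iInter₂.1 (hk i hi).2 m (Finset.mem_range.2 hmj)
        · refine hKW m ⟨(hk i hi).1, fun i' j' e => ?_⟩
          have : j = j' := by injection e
          omega
      have hW'm : Monotone W' := fun n n' h x hx => ⟨hx.1, fun m hm => hx.2 m (h.trans hm)⟩
      have hW'U : (⋃ n, W' n) = U := by
        ext x
        simp only [mem_iUnion]
        refine ⟨fun ⟨n, hx⟩ => hx.1, fun hx => ?_⟩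
        cases x with
        | a => exact ⟨0, hx, fun m _ => hKW m ⟨hx, fun i j e => by cases e⟩⟩
        | b => exact absurd hx hb
        | d i j =>
          refine ⟨j + 1, hx, fun m hm => hKW m ⟨hx, fun i' j' e => ?_⟩⟩
          have : j = j' := by injection e
          omega
      obtain ⟨n, hn⟩ := exists_mem_of_monotone 𝓤 hS W' hW'm hW'o (by rwa [hW'U])
      exact hWn n (hup _ hn _ (hWo n) fun x hx => hx.2 n le_rfl)
    · -- a set of isolated points
      let F : ℕ → Set Pt := fun n => {x | x ∈ U ∧ ∃ i j, x = d i j ∧ i < n ∧ j < n}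
      have hFo : ∀ n, IsOpen (F n) := by
        intro n
        rw [isOpen_iff]
        exact ⟨fun h => absurd h.1 ha, fun h => absurd h.1 hb⟩
      have hFm : Monotone F := by
        rintro n n' h x ⟨hx, i, j, e, hi, hj⟩
        exact ⟨hx, i, j, e, by omega, by omega⟩
      have hFU : (⋃ n, F n) = U := by
        ext x
        simp only [mem_iUnion]
        refine ⟨fun ⟨n, hx⟩ => hx.1, fun hx => ?_⟩
        cases x with
        | a => exact absurd hx ha
        | b => exact absurd hx hb
        | d i j => exact ⟨max i j + 1, hx, i, j, rfl, by omega, by omega⟩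
      obtain ⟨n, hn⟩ := exists_mem_of_monotone 𝓤 hS F hFm hFo (by rwa [hFU])
      refine ⟨F n, ?_, fun x hx => hx.1, fun V hV h => hup _ hn V hV h⟩
      exact ((finite_box (fun _ => n) n).subset fun x hx => hx.2).isCompact

end Pool.Agent.Lib.MP_2c91bd_gt
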